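import Pool.Agent.MP_f58063_ag.H.Main

open Pool.Agent.MP_f58063_ag

/-- Codimension of the strata of the Andreotti-Mayer locus `N_{k,g}`, `k ≤ g - 3`, given by the
corank of the Hessian of theta, at points whose endomorphism ring is `ℤ`. -/
theorem Pool.Agent.Results.MP_f58063_ag.HessianStrata.result (g k r d : ℕ) (hk : k + 3 ≤ g)
    (τ : Mat g) (hE : EndZ τ) :
    (k < r → DimGE (AMrank g k r) τ d →
      d + min (k + 1 + r * (r + 1) / 2) (g + k * (k + 1) / 2) ≤ g * (g + 1) / 2) ∧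
    (DimGE (AMdouble g k r) τ d →
      d + 3 ≤ 2 * g ∨ d + (k + 1 + r * (r + 1) / 2) ≤ g * (g + 1) / 2) :=
  ⟨fun _ h => Pool.Agent.MP_cf0a82_ag.rank_ineq hk hE h,
    fun h => Pool.Agent.MP_cf0a82_ag.double_ineq (by omega) hE h⟩
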