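import Pool.Agent.Mg.Fcf0a82q.G2bf017

open Pool.Agent.MP_f58063_ag

/-- The Andreotti-Mayer locus `N_{k,g}`, `k ≤ g - 3`, has codimension at least
(k + 1) (k + 2) / 2 at every point whose endomorphism ring is `ℤ`. -/
theorem Pool.Agent.Results.MP_f58063_ag.Inequality.result (g k d : ℕ) (hk : k + 3 ≤ g)
    (τ : Mat g) (hE : EndZ τ) (h : DimGE (AM g k) τ d) :
    d + (k + 1) * (k + 2) / 2 ≤ g * (g + 1) / 2 :=
  Pool.Agent.MP_cf0a82_ag.am_ineq hk hE h
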